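import Pool.Agent.Helper79.PN.Lem

set_option autoImplicit false

/-!
POS: positions of the vertices of degree 3 near a vertex of degree 4 (index 1).
-/

open scoped Classical

namespace Pool.Agent.Helper61.PN

open Pool.Agent.Helper79.PN

theorem st_POS : ST_POS := by
  intro P X m hX
  obtain ⟨hn, hv, h0, h1, h4⟩ := hX
  have g1 := g_gt
  have g2 := g_lt
  have v := w1 hn hv
  obtain ⟨v0, v0a, v0b, v0c, v0d, v0e⟩ := v m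
  obtain ⟨v1, v1a, v1b, v1c, v1d, v1e⟩ := v (m + 1)
  obtain ⟨v4, v4a, v4b, v4c, v4d, v4e⟩ := v (m - 1)
  obtain ⟨v2, v2a, v2b, v2c, v2d, v2e⟩ := v (m + 2)
  obtain ⟨v3, v3a, v3b, v3c, v3d, v3e⟩ := v (m - 2)
  obtain ⟨a1, a2, a3, a4, a5⟩ := P.rel0 X m
  obtain ⟨b1, b2, b3, b4, b5⟩ := P.relg X m
  have h2 : P.h X (m + 2) < (g - 1) / 2 := by linarith
  have h3 : P.h X (m - 2) < (g - 1) / 2 := by linarith
  have n1 : P.n (X + e (m + 1)) = 2 := by rw [P.n_add, hn]; rfl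
  have n4 : P.n (X + e (m - 1)) = 2 := by rw [P.n_add, hn]; rfl
  have n2 : P.n (X + e (m + 2) + e (m - 2)) = 3 := by rw [P.n_add, P.n_add, hn]; rfl
  obtain ⟨t0, t1, t4, t2, t3⟩ := P.stp1 X m
  obtain ⟨u0, u1, u4, u2, u3⟩ := P.stp4 X m
  obtain ⟨p0, p1, p4, p2, p3⟩ := P.stp2 X m
  obtain ⟨q0, q1, q4, q2, q3⟩ := P.stp3 (X + e (m + 2)) m
  refine ⟨⟨n1, (inv2 n1).2 (all5 m ?_ ?_ ?_ ?_ ?_), ?_, ?_⟩,
    ⟨n4, (inv2 n4).2 (all5 m ?_ ?_ ?_ ?_ ?_), ?_, ?_⟩,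
    ⟨by rw [Pen.mir_n, neg_neg, n2]; rfl, inv_mir.2 ((inv3 n2).2 (all5 m ?_ ?_ ?_ ?_ ?_)), ?_, ?_⟩⟩
  iterate 5 linarith
  · rw [p1p2]; linarith
  · rw [p1m2]; linarith
  iterate 5 linarith
  · rw [m1p2]; linarith
  · rw [m1m2]; linarith
  iterate 5 linarith
  · rw [Pen.mir_h, neg_neg]; linarith
  · rw [Pen.mir_h, neg_neg]; linarith

end Pool.Agent.Helper61.PN
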