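import Pool.Agent.Helper95.PN.Stmts
import Pool.Agent.Helper3.PW.Bump

/-! # Row E0 of the project PN (MP_56acfd_mp): the bottom of the spectrum is at most zero -/

set_option autoImplicit false

namespace Pool.Agent.Helper95.PW

open MeasureTheory Filter

theorem e0_exists (n : ℕ) : ∃ ψ : Wf n, Sm ψ ∧ Anti ψ ∧ 0 < sq ψ := by
  obtain ⟨b, hb1, hb2, hb3, hb4⟩ := Pool.Agent.Helper3.PW.bump_exists
  set c : Fin n → R3 := fun l => Pi.single 0 ((l : ℕ) : ℝ) with hc
  set f : Fin n → R3 → ℝ := fun l => Pool.Agent.Helper3.PW.fb b 1 (c l) with hf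
  have hf1 : ∀ l, ContDiff ℝ (⊤ : ℕ∞) (f l) := fun l =>
    Pool.Agent.Helper3.PW.fb_contDiff b hb1 1 (c l)
  have hf2 : ∀ l, HasCompactSupport (f l) := fun l =>
    Pool.Agent.Helper3.PW.fb_compact b hb3 1 one_pos (c l)
  have hf3 : ∀ l, ∫ y, f l y ^ 2 = 1 := fun l =>
    Pool.Agent.Helper3.PW.fb_sq b hb4 1 one_pos (c l)
  have hd : ∀ i j y, y ∈ tsupport (f i) → y ∈ tsupport (f j) → i = j := by
    intro i j y hi hj
    have h1 := Pool.Agent.Helper3.PW.fb_supp b hb3 1 one_pos (c i) y hi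
    have h2 := Pool.Agent.Helper3.PW.fb_supp b hb3 1 one_pos (c j) y hj
    have h3 := (norm_le_pi_norm (y - c i) 0).trans h1
    have h4 := (norm_le_pi_norm (y - c j) 0).trans h2
    have e1 : (y - c i) 0 = y 0 - ((i : ℕ) : ℝ) := by
      rw [hc]
      simp
    have e2 : (y - c j) 0 = y 0 - ((j : ℕ) : ℝ) := by
      rw [hc]
      simp
    rw [e1, Real.norm_eq_abs] at h3
    rw [e2, Real.norm_eq_abs] at h4
    obtain ⟨h5, h6⟩ := abs_le.1 h3
    obtain ⟨h7, h8⟩ := abs_le.1 h4
    have h9 : ((i : ℕ) : ℝ) < ((j : ℕ) : ℝ) + 1 := by linarith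
    have h10 : ((j : ℕ) : ℝ) < ((i : ℕ) : ℝ) + 1 := by linarith
    have h11 : (i : ℕ) < (j : ℕ) + 1 := by exact_mod_cast h9
    have h12 : (j : ℕ) < (i : ℕ) + 1 := by exact_mod_cast h10
    exact Fin.ext (by omega)
  have hint : 0 < ∫ x, Pool.Agent.Helper3.PW.ps f x ^ 2 := by
    simp_rw [Pool.Agent.Helper3.PW.ps_sq f hd]
    rw [integral_finset_sum]
    · have h1 : ∀ σ : Equiv.Perm (Fin n),
          ∫ x, Pool.Agent.Helper3.PW.pf (fun l => f (σ⁻¹ l)) x ^ 2 = 1 := by
        intro σ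
        rw [Pool.Agent.Helper3.PW.int_pf_sq]
        exact Finset.prod_eq_one fun l _ => hf3 _
      rw [Finset.sum_congr rfl fun σ _ => h1 σ]
      rw [Finset.sum_const, nsmul_eq_mul, mul_one]
      have : 0 < (Finset.univ : Finset (Equiv.Perm (Fin n))).card := Finset.card_pos.2 ⟨1, by simp⟩
      exact_mod_cast this
    · intro σ _
      refine Continuous.integrable_of_hasCompactSupport ?_ ?_
      · exact (Pool.Agent.Helper3.PW.pf_contDiff _ (fun l => hf1 _)).continuous.pow 2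
      · exact (Pool.Agent.Helper3.PW.pf_compact _ (fun l => hf2 _)).comp_left
          (g := fun t : ℝ => t ^ 2) (by simp)
  refine ⟨fun _ => Pool.Agent.Helper3.PW.ps f, fun _ =>
    ⟨Pool.Agent.Helper3.PW.ps_contDiff f hf1, Pool.Agent.Helper3.PW.ps_compact f hf2⟩,
    fun π s x => Pool.Agent.Helper3.PW.ps_anti f π x, ?_⟩
  unfold sq
  exact Finset.sum_pos (fun _ _ => hint) Finset.univ_nonempty

/-- the dilation -/
noncomputable def e0_dil {n : ℕ} (r : ℝ) (ψ : Wf n) : Wf n := fun s x => ψ s (r • x)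

theorem e0_Sm {n : ℕ} {r : ℝ} (hr : 0 < r) {ψ : Wf n} (h : Sm ψ) : Sm (e0_dil r ψ) := by
  intro s
  refine ⟨(h s).1.comp (contDiff_id.const_smul r), ?_⟩
  exact (h s).2.comp_smul hr.ne'

theorem e0_Anti {n : ℕ} (r : ℝ) {ψ : Wf n} (h : Anti ψ) : Anti (e0_dil r ψ) := by
  intro π s x
  exact h π s (r • x)

theorem e0_dv {n : ℕ} (r : ℝ) (v : Cf n → ℝ) (k : Fin n) (i : Fin 3) (x : Cf n) :
    dv k i (fun x => v (r • x)) x = r * dv k i v (r • x) := by
  unfold dv
  rw [fderiv_comp_smul]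
  rfl

theorem e0_nr (r : ℝ) (hr : 0 < r) (y : R3) : nr (r • y) = r * nr y := by
  unfold nr
  simp only [Pi.smul_apply, smul_eq_mul]
  rw [show (r * y 0) ^ 2 + (r * y 1) ^ 2 + (r * y 2) ^ 2 =
    r ^ 2 * (y 0 ^ 2 + y 1 ^ 2 + y 2 ^ 2) by ring, Real.sqrt_mul (by positivity),
    Real.sqrt_sq hr.le]

theorem e0_rep {n : ℕ} (r : ℝ) (hr : 0 < r) (x : Cf n) : rep x = r * rep (r • x) := by
  unfold rep
  rw [Finset.mul_sum]
  refine Finset.sum_congr rfl fun k _ => ?_
  rw [Finset.mul_sum]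
  refine Finset.sum_congr rfl fun l _ => ?_
  by_cases h : k < l
  · rw [if_pos h, if_pos h]
    have e1 : (r • x) k - (r • x) l = r • (x k - x l) := by
      simp only [Pi.smul_apply, smul_sub]
    rw [e1, e0_nr r hr]
    by_cases h0 : nr (x k - x l) = 0
    · rw [h0]; simp
    · field_simp
  · rw [if_neg h, if_neg h, mul_zero]

theorem e0_nr_nonneg (y : R3) : 0 ≤ nr y := Real.sqrt_nonneg _

theorem e0_rep_nonneg {n : ℕ} (x : Cf n) : 0 ≤ rep x := by
  unfold rep
  refine Finset.sum_nonneg fun k _ => Finset.sum_nonneg fun l _ => ?_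
  split_ifs
  · exact div_nonneg zero_le_one (e0_nr_nonneg _)
  · exact le_rfl

theorem st_E0 : ST_E0 := by
  intro n M X Z E hn hZ hlow
  obtain ⟨ψ, h1, h2, h3⟩ := e0_exists n
  by_contra hE
  have hE' : 0 < E := not_le.1 hE
  have hkin0 : 0 ≤ kin ψ := by
    unfold kin sq
    exact Finset.sum_nonneg fun k _ => Finset.sum_nonneg fun i _ => Finset.sum_nonneg fun s _ =>
      integral_nonneg fun x => sq_nonneg _
  have hpair0 : 0 ≤ pair ψ := by
    unfold pair
    exact Finset.sum_nonneg fun s _ => integral_nonneg fun x =>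
      mul_nonneg (e0_rep_nonneg x) (sq_nonneg _)
  have key : ∀ r : ℝ, 0 < r → E * sq ψ ≤ r ^ 2 * kin ψ + r * pair ψ := by
    intro r hr
    set K : ℝ := |(r ^ Module.finrank ℝ (Cf n))⁻¹| with hK
    have hK0 : 0 < K := by rw [hK]; positivity
    have hsc : ∀ F : Cf n → ℝ, ∫ x, F (r • x) = K * ∫ x, F x := by
      intro F
      rw [Measure.integral_comp_smul volume F r, smul_eq_mul]
    have s1 : sq (e0_dil r ψ) = K * sq ψ := by
      unfold sq
      rw [Finset.mul_sum]
      exact Finset.sum_congr rfl fun s _ => hsc (fun x => ψ s x ^ 2)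
    have s2 : kin (e0_dil r ψ) = K * (r ^ 2 * kin ψ) := by
      unfold kin sq
      simp only [Finset.mul_sum]
      refine Finset.sum_congr rfl fun k _ => Finset.sum_congr rfl fun i _ =>
        Finset.sum_congr rfl fun s _ => ?_
      have e1 : ∀ x, dv k i (e0_dil r ψ s) x ^ 2 =
          (fun x => r ^ 2 * dv k i (ψ s) x ^ 2) (r • x) := by
        intro x
        have : dv k i (e0_dil r ψ s) x = r * dv k i (ψ s) (r • x) := e0_dv r (ψ s) k i x
        rw [this]
        ring
      simp_rw [e1]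
      rw [hsc (fun x => r ^ 2 * dv k i (ψ s) x ^ 2), integral_const_mul]
    have s3 : pair (e0_dil r ψ) = K * (r * pair ψ) := by
      unfold pair
      simp only [Finset.mul_sum]
      refine Finset.sum_congr rfl fun s _ => ?_
      have e1 : ∀ x, rep x * e0_dil r ψ s x ^ 2 =
          (fun x => r * (rep x * ψ s x ^ 2)) (r • x) := by
        intro x
        rw [e0_rep r hr x]
        unfold e0_dil
        ring
      simp_rw [e1]
      rw [hsc (fun x => r * (rep x * ψ s x ^ 2)), integral_const_mul]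
    have s4 : 0 ≤ one (pot X Z) (e0_dil r ψ) := by
      unfold one
      refine Finset.sum_nonneg fun s _ => integral_nonneg fun x => ?_
      refine mul_nonneg (Finset.sum_nonneg fun k _ => ?_) (sq_nonneg _)
      unfold pot
      exact Finset.sum_nonneg fun j _ => div_nonneg (hZ j) (e0_nr_nonneg _)
    have h5 := hlow (e0_dil r ψ) (e0_Sm hr h1) (e0_Anti r h2)
    unfold QM at h5
    rw [s1, s2, s3] at h5
    have h6 : K * (E * sq ψ) ≤ K * (r ^ 2 * kin ψ + r * pair ψ) := by
      have e1 : E * (K * sq ψ) = K * (E * sq ψ) := by ring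
      rw [e1] at h5
      rw [mul_add]
      linarith
    exact le_of_mul_le_mul_left h6 hK0
  set A : ℝ := E * sq ψ with hA
  have hA0 : 0 < A := mul_pos hE' h3
  set T : ℝ := kin ψ + pair ψ + 1 with hT
  have hT0 : 0 < T := by linarith
  have hr : 0 < min 1 (A / (2 * T)) := lt_min one_pos (by positivity)
  have h7 := key _ hr
  set r : ℝ := min 1 (A / (2 * T)) with hr'
  have hr1 : r ≤ 1 := min_le_left _ _
  have hr2 : r ≤ A / (2 * T) := min_le_right _ _
  have h8 : r ^ 2 * kin ψ ≤ r * kin ψ := by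
    refine mul_le_mul_of_nonneg_right ?_ hkin0
    nlinarith
  have h9 : r * T ≤ A / 2 := by
    calc r * T ≤ A / (2 * T) * T := mul_le_mul_of_nonneg_right hr2 hT0.le
      _ = A / 2 := by field_simp
  nlinarith

end Pool.Agent.Helper95.PW
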